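import Pool.Agent.H85.LK.Targets

/-!
# CHI: computation for the profile (helper7)
-/

set_option autoImplicit false

open MeasureTheory Metric Set ProbabilityTheory
open scoped ENNReal

namespace Pool.Agent.H7.LK

open Pool.Agent.H85.LK

/-- Gaussian integrals of profiles on an interval -/
theorem chi_int (b l : ℝ) (hl : 0 ≤ l) (P : ℝ → ℝ) :
    ∫ z, (if b ≤ z ∧ z ≤ b + l then Real.exp (z ^ 2 / 4) * P z else 0) ^ 2
      ∂(gaussianReal 0 1) = (Real.sqrt (2 * Real.pi))⁻¹ * ∫ z in b..(b + l), P z ^ 2 := by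
  rw [integral_gaussianReal_eq_integral_smul one_ne_zero]
  have h1 : ∀ z : ℝ, gaussianPDFReal 0 1 z •
      (if b ≤ z ∧ z ≤ b + l then Real.exp (z ^ 2 / 4) * P z else 0) ^ 2 =
      (Icc b (b + l)).indicator (fun z => (Real.sqrt (2 * Real.pi))⁻¹ * P z ^ 2) z := by
    intro z
    by_cases hz : b ≤ z ∧ z ≤ b + l
    · have hz' : z ∈ Icc b (b + l) := hz
      rw [if_pos hz, Set.indicator_of_mem hz', gaussianPDFReal]
      have h2 : Real.exp (z ^ 2 / 4) ^ 2 = Real.exp (z ^ 2 / 2) := by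
        rw [← Real.exp_nat_mul]
        congr 1
        push_cast
        ring
      have h3 : Real.exp (-(z - 0) ^ 2 / (2 * ((1 : NNReal) : ℝ))) * Real.exp (z ^ 2 / 2) = 1 := by
        rw [← Real.exp_add]
        have : -(z - 0) ^ 2 / (2 * ((1 : NNReal) : ℝ)) + z ^ 2 / 2 = 0 := by
          push_cast
          ring
        rw [this, Real.exp_zero]
      rw [smul_eq_mul, mul_pow, h2]
      have h4 : Real.sqrt (2 * Real.pi * ((1 : NNReal) : ℝ)) = Real.sqrt (2 * Real.pi) := by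
        push_cast
        rw [mul_one]
      rw [h4]
      calc (Real.sqrt (2 * Real.pi))⁻¹ * Real.exp (-(z - 0) ^ 2 / (2 * ((1 : NNReal) : ℝ))) *
            (Real.exp (z ^ 2 / 2) * P z ^ 2) = (Real.sqrt (2 * Real.pi))⁻¹ *
            (Real.exp (-(z - 0) ^ 2 / (2 * ((1 : NNReal) : ℝ))) * Real.exp (z ^ 2 / 2)) *
              P z ^ 2 := by ring
        _ = _ := by rw [h3, mul_one]
    · have hz' : z ∉ Icc b (b + l) := hz
      rw [if_neg hz, Set.indicator_of_notMem hz']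
      simp
  simp_rw [h1]
  rw [integral_indicator measurableSet_Icc, integral_Icc_eq_integral_Ioc,
    ← intervalIntegral.integral_of_le (by linarith), intervalIntegral.integral_const_mul]

theorem chi_M2 (b l : ℝ) (hl : 0 ≤ l) :
    M2 b l = (Real.sqrt (2 * Real.pi))⁻¹ * (l ^ 5 / 30) := by
  unfold M2 chi
  rw [chi_int b l hl]
  congr 1
  have h : ∀ z ∈ uIcc b (b + l), HasDerivAt (fun z : ℝ => l ^ 2 * (z - b) ^ 3 / 3 -
      l * (z - b) ^ 4 / 2 + (z - b) ^ 5 / 5) (((z - b) * (b + l - z)) ^ 2) z := by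
    intro z _
    have h0 : HasDerivAt (fun z : ℝ => z - b) 1 z := (hasDerivAt_id z).sub_const b
    have h3 := ((h0.pow 3).const_mul (l ^ 2)).div_const 3
    have h4 := ((h0.pow 4).const_mul l).div_const 2
    have h5 := (h0.pow 5).div_const 5
    refine ((h3.sub h4).add h5).congr_deriv ?_
    push_cast
    ring
  rw [intervalIntegral.integral_eq_sub_of_hasDerivAt h
    (Continuous.intervalIntegrable (by fun_prop) _ _)]
  ring

theorem chi_DD (b l : ℝ) (hl : 0 ≤ l) :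
    DD b l = (Real.sqrt (2 * Real.pi))⁻¹ * (l ^ 3 / 3 - l ^ 5 / 60 +
      1 / 4 * (b ^ 2 * l ^ 5 / 30 + b * l ^ 6 / 30 + l ^ 7 / 105)) := by
  unfold DD dchi
  rw [chi_int b l hl (fun z => (b + l - z) - (z - b) + z / 2 * ((z - b) * (b + l - z)))]
  congr 1
  -- with `u = z - b`: the integrand is `(l - 2 u + (b + u) u (l - u) / 2) ^ 2`
  have h : ∀ z ∈ uIcc b (b + l), HasDerivAt (fun z : ℝ =>
      (l ^ 2 * (z - b) - 2 * l * (z - b) ^ 2 + 4 * (z - b) ^ 3 / 3) +
      (b * (l ^ 2 * (z - b) ^ 2 / 2 - l * (z - b) ^ 3 + (z - b) ^ 4 / 2) +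
        (l ^ 2 * (z - b) ^ 3 / 3 - 3 * l * (z - b) ^ 4 / 4 + 2 * (z - b) ^ 5 / 5)) +
      1 / 4 * (b ^ 2 * (l ^ 2 * (z - b) ^ 3 / 3 - l * (z - b) ^ 4 / 2 + (z - b) ^ 5 / 5) +
        2 * b * (l ^ 2 * (z - b) ^ 4 / 4 - 2 * l * (z - b) ^ 5 / 5 + (z - b) ^ 6 / 6) +
        (l ^ 2 * (z - b) ^ 5 / 5 - l * (z - b) ^ 6 / 3 + (z - b) ^ 7 / 7)))
      (((b + l - z) - (z - b) + z / 2 * ((z - b) * (b + l - z))) ^ 2) z := by
    intro z _
    have h0 : HasDerivAt (fun z : ℝ => z - b) 1 z := (hasDerivAt_id z).sub_const b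
    have h2 := h0.pow 2
    have h3 := h0.pow 3
    have h4 := h0.pow 4
    have h5 := h0.pow 5
    have h6 := h0.pow 6
    have h7 := h0.pow 7
    have A := ((h0.const_mul (l ^ 2)).sub (h2.const_mul (2 * l))).add
      ((h3.const_mul 4).div_const 3)
    have B1 := ((((h2.const_mul (l ^ 2)).div_const 2).sub (h3.const_mul l)).add
      (h4.div_const 2)).const_mul b
    have B2 := (((h3.const_mul (l ^ 2)).div_const 3).sub ((h4.const_mul (3 * l)).div_const 4)).add
      ((h5.const_mul 2).div_const 5)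
    have C1 := ((((h3.const_mul (l ^ 2)).div_const 3).sub ((h4.const_mul l).div_const 2)).add
      (h5.div_const 5)).const_mul (b ^ 2)
    have C2 := ((((h4.const_mul (l ^ 2)).div_const 4).sub
      ((h5.const_mul (2 * l)).div_const 5)).add (h6.div_const 6)).const_mul (2 * b)
    have C3 := (((h5.const_mul (l ^ 2)).div_const 5).sub ((h6.const_mul l).div_const 3)).add
      (h7.div_const 7)
    refine ((A.add (B1.add B2)).add (((C1.add C2).add C3).const_mul (1 / 4))).congr_deriv ?_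
    push_cast
    ring
  rw [intervalIntegral.integral_eq_sub_of_hasDerivAt h
    (Continuous.intervalIntegrable (by fun_prop) _ _)]
  ring

/-- CHI: computation for the profile -/
theorem pf_CHI : T_CHI := by
  intro b hb
  have hb0 : 0 < b := by linarith
  set l : ℝ := b ^ (-(1 / 3) : ℝ) with hl
  set t : ℝ := b ^ ((2 / 3) : ℝ) with ht
  have hl0 : 0 < l := Real.rpow_pos_of_pos hb0 _
  have hl1 : l ≤ 1 := Real.rpow_le_one_of_one_le_of_nonpos hb (by norm_num)
  have ht1 : 1 ≤ t := Real.one_le_rpow hb (by norm_num)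
  have hlt : l ^ 2 * t = 1 := by
    rw [hl, ht, ← Real.rpow_natCast, ← Real.rpow_mul hb0.le, ← Real.rpow_add hb0]
    norm_num
  have hbl : b * l = t := by
    rw [hl, ht]
    nth_rewrite 1 [← Real.rpow_one b]
    rw [← Real.rpow_add hb0]
    norm_num
  have hs : 0 < (Real.sqrt (2 * Real.pi))⁻¹ := by positivity
  rw [chi_M2 b l hl0.le, chi_DD b l hl0.le]
  have hl2 : l ^ 2 ≤ 1 := by nlinarith
  have h3 : 0 < l ^ 3 := by positivity
  have h5 : 0 < l ^ 5 := by positivity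
  have h53 : l ^ 5 ≤ l ^ 3 := by
    have : l ^ 5 = l ^ 3 * l ^ 2 := by ring
    rw [this]
    nlinarith
  refine ⟨by positivity, ?_, ?_⟩
  · apply mul_le_mul_of_nonneg_left _ hs.le
    have h6 : 0 ≤ b ^ 2 * l ^ 5 / 30 + b * l ^ 6 / 30 + l ^ 7 / 105 := by positivity
    nlinarith
  · have e1 : l ^ 3 = l ^ 5 * t := by
      calc l ^ 3 = l ^ 3 * (l ^ 2 * t) := by rw [hlt, mul_one]
        _ = _ := by ring
    have e2 : b * l ^ 6 = l ^ 5 * t := by
      calc b * l ^ 6 = l ^ 5 * (b * l) := by ring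
        _ = _ := by rw [hbl]
    have e3 : l ^ 7 ≤ l ^ 5 := by
      have : l ^ 7 = l ^ 5 * l ^ 2 := by ring
      rw [this]
      nlinarith
    have e4 : l ^ 3 / 3 - l ^ 5 / 60 +
        1 / 4 * (b ^ 2 * l ^ 5 / 30 + b * l ^ 6 / 30 + l ^ 7 / 105) ≤
        (b ^ 2 / 4 + 11 * t) * (l ^ 5 / 30) := by
      rw [e1, e2]
      have e5 : l ^ 5 ≤ l ^ 5 * t := by nlinarith
      nlinarith
    calc (Real.sqrt (2 * Real.pi))⁻¹ * (l ^ 3 / 3 - l ^ 5 / 60 +
          1 / 4 * (b ^ 2 * l ^ 5 / 30 + b * l ^ 6 / 30 + l ^ 7 / 105)) ≤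
          (Real.sqrt (2 * Real.pi))⁻¹ * ((b ^ 2 / 4 + 11 * t) * (l ^ 5 / 30)) :=
          mul_le_mul_of_nonneg_left e4 hs.le
      _ = _ := by ring

end Pool.Agent.H7.LK
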