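import Pool.Agent.H85.LK.Targets

/-!
# DU: eigenvalues of a disjoint union (helper7)
-/

set_option autoImplicit false

open MeasureTheory Metric Set ProbabilityTheory
open scoped ENNReal

namespace Pool.Agent.H7.LK

open Pool.Agent.H85.LK

/-- the quadratic form of a space of test functions -/
theorem du_form (N : ℕ) (c : ℝ) (W : Submodule ℝ (E N → ℝ))
    (hW : ∀ w ∈ W, ContDiff ℝ (⊤ : ℕ∞) w ∧ HasCompactSupport w) :
    ∃ q : QuadraticForm ℝ W, ∀ w : W, q w =
      c * (∫ x, (w : E N → ℝ) x ^ 2) - ∫ x, ‖fderiv ℝ (w : E N → ℝ) x‖ ^ 2 := by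
  have hI1 : ∀ w w' : W, Integrable (fun x => (w : E N → ℝ) x * (w' : E N → ℝ) x) := by
    intro w w'
    apply Continuous.integrable_of_hasCompactSupport
    · exact (hW _ w.2).1.continuous.mul (hW _ w'.2).1.continuous
    · exact (hW _ w.2).2.mul_right
  have hgc : ∀ w : W, Continuous (fun x => (InnerProductSpace.toDual ℝ (E N)).symm
      (fderiv ℝ (w : E N → ℝ) x)) := by
    intro w
    have h1 : Continuous (fderiv ℝ (w : E N → ℝ)) :=
      (hW _ w.2).1.continuous_fderiv (by norm_num)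
    exact (InnerProductSpace.toDual ℝ (E N)).symm.continuous.comp h1
  have hI2 : ∀ w w' : W, Integrable (fun x => (inner ℝ
      ((InnerProductSpace.toDual ℝ (E N)).symm (fderiv ℝ (w : E N → ℝ) x))
      ((InnerProductSpace.toDual ℝ (E N)).symm (fderiv ℝ (w' : E N → ℝ) x)) : ℝ)) := by
    intro w w'
    apply Continuous.integrable_of_hasCompactSupport
    · exact (hgc w).inner (hgc w')
    · have h2 : HasCompactSupport (fderiv ℝ (w : E N → ℝ)) := (hW _ w.2).2.fderiv ℝ
      refine h2.mono ?_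
      intro x hx
      rw [Function.mem_support] at hx ⊢
      intro h3
      apply hx
      rw [h3, map_zero, inner_zero_left]
  have hdf : ∀ (w : W) (x : E N), DifferentiableAt ℝ (w : E N → ℝ) x := fun w x =>
    ((hW _ w.2).1.differentiable (by norm_num)) x
  let B : W →ₗ[ℝ] W →ₗ[ℝ] ℝ := LinearMap.mk₂ ℝ (fun w w' =>
    c * (∫ x, (w : E N → ℝ) x * (w' : E N → ℝ) x) - ∫ x, (inner ℝ
      ((InnerProductSpace.toDual ℝ (E N)).symm (fderiv ℝ (w : E N → ℝ) x))
      ((InnerProductSpace.toDual ℝ (E N)).symm (fderiv ℝ (w' : E N → ℝ) x)) : ℝ))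
    (by
      intro w₁ w₂ w'
      have e1 : ∫ x, ((w₁ + w₂ : W) : E N → ℝ) x * (w' : E N → ℝ) x =
          (∫ x, (w₁ : E N → ℝ) x * (w' : E N → ℝ) x) +
            ∫ x, (w₂ : E N → ℝ) x * (w' : E N → ℝ) x := by
        rw [← integral_add (hI1 _ _) (hI1 _ _)]
        refine integral_congr_ae (Filter.Eventually.of_forall fun x => ?_)
        simp [add_mul]
      have e2 : (∫ x, (inner ℝ
          ((InnerProductSpace.toDual ℝ (E N)).symm (fderiv ℝ ((w₁ + w₂ : W) : E N → ℝ) x))
          ((InnerProductSpace.toDual ℝ (E N)).symm (fderiv ℝ (w' : E N → ℝ) x)) : ℝ)) =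
          (∫ x, (inner ℝ
            ((InnerProductSpace.toDual ℝ (E N)).symm (fderiv ℝ (w₁ : E N → ℝ) x))
            ((InnerProductSpace.toDual ℝ (E N)).symm (fderiv ℝ (w' : E N → ℝ) x)) : ℝ)) +
          ∫ x, (inner ℝ
            ((InnerProductSpace.toDual ℝ (E N)).symm (fderiv ℝ (w₂ : E N → ℝ) x))
            ((InnerProductSpace.toDual ℝ (E N)).symm (fderiv ℝ (w' : E N → ℝ) x)) : ℝ) := by
        rw [← integral_add (hI2 _ _) (hI2 _ _)]
        refine integral_congr_ae (Filter.Eventually.of_forall fun x => ?_)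
        have h3 : fderiv ℝ ((w₁ + w₂ : W) : E N → ℝ) x =
            fderiv ℝ (w₁ : E N → ℝ) x + fderiv ℝ (w₂ : E N → ℝ) x :=
          fderiv_add (hdf w₁ x) (hdf w₂ x)
        simp only [h3, map_add, inner_add_left]
      rw [e1, e2]
      ring)
    (by
      intro a w w'
      have e1 : ∫ x, ((a • w : W) : E N → ℝ) x * (w' : E N → ℝ) x =
          a * ∫ x, (w : E N → ℝ) x * (w' : E N → ℝ) x := by
        rw [← integral_const_mul]
        refine integral_congr_ae (Filter.Eventually.of_forall fun x => ?_)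
        simp [mul_assoc]
      have e2 : (∫ x, (inner ℝ
          ((InnerProductSpace.toDual ℝ (E N)).symm (fderiv ℝ ((a • w : W) : E N → ℝ) x))
          ((InnerProductSpace.toDual ℝ (E N)).symm (fderiv ℝ (w' : E N → ℝ) x)) : ℝ)) =
          a * ∫ x, (inner ℝ
            ((InnerProductSpace.toDual ℝ (E N)).symm (fderiv ℝ (w : E N → ℝ) x))
            ((InnerProductSpace.toDual ℝ (E N)).symm (fderiv ℝ (w' : E N → ℝ) x)) : ℝ) := by
        rw [← integral_const_mul]
        refine integral_congr_ae (Filter.Eventually.of_forall fun x => ?_)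
        have h3 : fderiv ℝ ((a • w : W) : E N → ℝ) x = a • fderiv ℝ (w : E N → ℝ) x :=
          fderiv_const_smul (hdf w x) a
        simp only [h3]
        simp [inner_smul_left]
      rw [e1, e2]
      simp only [smul_eq_mul]
      ring)
    (by
      intro w' w₁ w₂
      have e1 : ∫ x, (w' : E N → ℝ) x * ((w₁ + w₂ : W) : E N → ℝ) x =
          (∫ x, (w' : E N → ℝ) x * (w₁ : E N → ℝ) x) +
            ∫ x, (w' : E N → ℝ) x * (w₂ : E N → ℝ) x := by
        rw [← integral_add (hI1 _ _) (hI1 _ _)]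
        refine integral_congr_ae (Filter.Eventually.of_forall fun x => ?_)
        simp [mul_add]
      have e2 : (∫ x, (inner ℝ
          ((InnerProductSpace.toDual ℝ (E N)).symm (fderiv ℝ (w' : E N → ℝ) x))
          ((InnerProductSpace.toDual ℝ (E N)).symm
            (fderiv ℝ ((w₁ + w₂ : W) : E N → ℝ) x)) : ℝ)) =
          (∫ x, (inner ℝ
            ((InnerProductSpace.toDual ℝ (E N)).symm (fderiv ℝ (w' : E N → ℝ) x))
            ((InnerProductSpace.toDual ℝ (E N)).symm (fderiv ℝ (w₁ : E N → ℝ) x)) : ℝ)) +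
          ∫ x, (inner ℝ
            ((InnerProductSpace.toDual ℝ (E N)).symm (fderiv ℝ (w' : E N → ℝ) x))
            ((InnerProductSpace.toDual ℝ (E N)).symm (fderiv ℝ (w₂ : E N → ℝ) x)) : ℝ) := by
        rw [← integral_add (hI2 _ _) (hI2 _ _)]
        refine integral_congr_ae (Filter.Eventually.of_forall fun x => ?_)
        have h3 : fderiv ℝ ((w₁ + w₂ : W) : E N → ℝ) x =
            fderiv ℝ (w₁ : E N → ℝ) x + fderiv ℝ (w₂ : E N → ℝ) x :=
          fderiv_add (hdf w₁ x) (hdf w₂ x)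
        simp only [h3, map_add, inner_add_right]
      rw [e1, e2]
      ring)
    (by
      intro a w' w
      have e1 : ∫ x, (w' : E N → ℝ) x * ((a • w : W) : E N → ℝ) x =
          a * ∫ x, (w' : E N → ℝ) x * (w : E N → ℝ) x := by
        rw [← integral_const_mul]
        refine integral_congr_ae (Filter.Eventually.of_forall fun x => ?_)
        simp only [Submodule.coe_smul, Pi.smul_apply, smul_eq_mul]
        ring
      have e2 : (∫ x, (inner ℝ
          ((InnerProductSpace.toDual ℝ (E N)).symm (fderiv ℝ (w' : E N → ℝ) x))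
          ((InnerProductSpace.toDual ℝ (E N)).symm
            (fderiv ℝ ((a • w : W) : E N → ℝ) x)) : ℝ)) =
          a * ∫ x, (inner ℝ
            ((InnerProductSpace.toDual ℝ (E N)).symm (fderiv ℝ (w' : E N → ℝ) x))
            ((InnerProductSpace.toDual ℝ (E N)).symm (fderiv ℝ (w : E N → ℝ) x)) : ℝ) := by
        rw [← integral_const_mul]
        refine integral_congr_ae (Filter.Eventually.of_forall fun x => ?_)
        have h3 : fderiv ℝ ((a • w : W) : E N → ℝ) x = a • fderiv ℝ (w : E N → ℝ) x :=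
          fderiv_const_smul (hdf w x) a
        simp only [h3]
        simp [inner_smul_right]
      rw [e1, e2]
      simp only [smul_eq_mul]
      ring)
  refine ⟨LinearMap.BilinMap.toQuadraticMap B, ?_⟩
  intro w
  rw [LinearMap.BilinMap.toQuadraticMap_apply]
  change c * (∫ x, (w : E N → ℝ) x * (w : E N → ℝ) x) - (∫ x, (inner ℝ
      ((InnerProductSpace.toDual ℝ (E N)).symm (fderiv ℝ (w : E N → ℝ) x))
      ((InnerProductSpace.toDual ℝ (E N)).symm (fderiv ℝ (w : E N → ℝ) x)) : ℝ)) = _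
  have e3 : ∀ x, (inner ℝ
      ((InnerProductSpace.toDual ℝ (E N)).symm (fderiv ℝ (w : E N → ℝ) x))
      ((InnerProductSpace.toDual ℝ (E N)).symm (fderiv ℝ (w : E N → ℝ) x)) : ℝ) =
      ‖fderiv ℝ (w : E N → ℝ) x‖ ^ 2 := by
    intro x
    rw [real_inner_self_eq_norm_sq, LinearIsometryEquiv.norm_map]
  simp only [e3, ← pow_two]

/-- the restriction to one of two disjoint open sets -/
theorem du_ind (N : ℕ) (Ω₁ Ω₂ : Set (E N)) (h1 : IsOpen Ω₁) (h2 : IsOpen Ω₂)
    (hd : Disjoint Ω₁ Ω₂) (v : E N → ℝ) (hv : ContDiff ℝ (⊤ : ℕ∞) v)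
    (hc : HasCompactSupport v) (ht : tsupport v ⊆ Ω₁ ∪ Ω₂) :
    ContDiff ℝ (⊤ : ℕ∞) (Ω₁.indicator v) ∧ HasCompactSupport (Ω₁.indicator v) ∧
      tsupport (Ω₁.indicator v) ⊆ Ω₁ ∧
      (∀ x, fderiv ℝ (Ω₁.indicator v) x = Ω₁.indicator (fderiv ℝ v) x) := by
  have e1 : ∀ x ∈ Ω₁, Ω₁.indicator v =ᶠ[nhds x] v := by
    intro x hx
    filter_upwards [h1.mem_nhds hx] with y hy
    exact Set.indicator_of_mem hy v
  have e2 : ∀ x, x ∉ Ω₁ → Ω₁.indicator v =ᶠ[nhds x] fun _ => 0 := by
    intro x hx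
    by_cases hx2 : x ∈ Ω₂
    · filter_upwards [h2.mem_nhds hx2] with y hy
      exact Set.indicator_of_notMem (fun hy1 => Set.disjoint_left.mp hd hy1 hy) v
    · have hx3 : x ∉ tsupport v := fun h => by
        rcases ht h with h | h
        · exact hx h
        · exact hx2 h
      have h3 : v =ᶠ[nhds x] 0 := notMem_tsupport_iff_eventuallyEq.mp hx3
      filter_upwards [h3] with y hy
      by_cases hy1 : y ∈ Ω₁
      · rw [Set.indicator_of_mem hy1, hy]; rfl
      · exact Set.indicator_of_notMem hy1 v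
  refine ⟨?_, ?_, ?_, ?_⟩
  · rw [contDiff_iff_contDiffAt]
    intro x
    by_cases hx : x ∈ Ω₁
    · exact (hv.contDiffAt).congr_of_eventuallyEq (e1 x hx)
    · exact contDiffAt_const.congr_of_eventuallyEq (e2 x hx)
  · refine hc.mono ?_
    intro x hx
    rw [Function.mem_support] at hx ⊢
    intro h3
    apply hx
    by_cases hx1 : x ∈ Ω₁
    · rw [Set.indicator_of_mem hx1, h3]
    · exact Set.indicator_of_notMem hx1 v
  · intro x hx
    by_contra hx1
    exact (notMem_tsupport_iff_eventuallyEq.mpr (e2 x hx1)) hx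
  · intro x
    by_cases hx : x ∈ Ω₁
    · rw [Set.indicator_of_mem hx, (e1 x hx).fderiv_eq]
    · rw [Set.indicator_of_notMem hx, (e2 x hx).fderiv_eq]
      simp

/-- DU: eigenvalues of a disjoint union -/
theorem pf_DU (hLIN : T_LIN) : T_DU := by
  intro N n Ω₁ Ω₂ c h1 h2 hd hn hc
  obtain ⟨V, hVn, hV⟩ := hc
  have hfin : FiniteDimensional ℝ V := Module.finite_of_finrank_pos (by omega)
  have ht2 : ∀ v ∈ V, tsupport v ⊆ Ω₂ ∪ Ω₁ := fun v hv => by
    rw [Set.union_comm]; exact (hV v hv).2.2.1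
  -- restriction maps
  let T : Set (E N) → (E N → ℝ) →ₗ[ℝ] (E N → ℝ) := fun S =>
    { toFun := fun v => S.indicator v
      map_add' := fun v w => Set.indicator_add S v w
      map_smul' := fun a v => Set.indicator_const_smul S a v }
  have hT : ∀ (S : Set (E N)) (v : E N → ℝ), T S v = S.indicator v := fun _ _ => rfl
  have hW1 : ∀ w ∈ V.map (T Ω₁), ContDiff ℝ (⊤ : ℕ∞) w ∧ HasCompactSupport w ∧
      tsupport w ⊆ Ω₁ := by
    intro w hw
    obtain ⟨v, hv, rfl⟩ := Submodule.mem_map.mp hw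
    obtain ⟨a, b, c', d⟩ := du_ind N Ω₁ Ω₂ h1 h2 hd v (hV v hv).1 (hV v hv).2.1 (hV v hv).2.2.1
    exact ⟨a, b, c'⟩
  have hW2 : ∀ w ∈ V.map (T Ω₂), ContDiff ℝ (⊤ : ℕ∞) w ∧ HasCompactSupport w ∧
      tsupport w ⊆ Ω₂ := by
    intro w hw
    obtain ⟨v, hv, rfl⟩ := Submodule.mem_map.mp hw
    obtain ⟨a, b, c', d⟩ := du_ind N Ω₂ Ω₁ h2 h1 hd.symm v (hV v hv).1 (hV v hv).2.1
      (ht2 v hv)
    exact ⟨a, b, c'⟩
  obtain ⟨q₁, hq₁⟩ := du_form N c (V.map (T Ω₁)) (fun w hw => ⟨(hW1 w hw).1, (hW1 w hw).2.1⟩)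
  obtain ⟨q₂, hq₂⟩ := du_form N c (V.map (T Ω₂)) (fun w hw => ⟨(hW2 w hw).1, (hW2 w hw).2.1⟩)
  let L : V →ₗ[ℝ] (V.map (T Ω₁)) × (V.map (T Ω₂)) :=
    LinearMap.prod ((T Ω₁).restrict (p := V) (q := V.map (T Ω₁))
        (fun v hv => Submodule.mem_map_of_mem hv))
      ((T Ω₂).restrict (p := V) (q := V.map (T Ω₂)) (fun v hv => Submodule.mem_map_of_mem hv))
  have hL1 : ∀ v : V, ((L v).1 : E N → ℝ) = Ω₁.indicator (v : E N → ℝ) := fun v => rfl
  have hL2 : ∀ v : V, ((L v).2 : E N → ℝ) = Ω₂.indicator (v : E N → ℝ) := fun v => rfl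
  have hsum : ∀ (v : V) (x : E N), (v : E N → ℝ) x =
      Ω₁.indicator (v : E N → ℝ) x + Ω₂.indicator (v : E N → ℝ) x := by
    intro v x
    by_cases hx1 : x ∈ Ω₁
    · have hx2 : x ∉ Ω₂ := fun h => Set.disjoint_left.mp hd hx1 h
      rw [Set.indicator_of_mem hx1, Set.indicator_of_notMem hx2, add_zero]
    · by_cases hx2 : x ∈ Ω₂
      · rw [Set.indicator_of_mem hx2, Set.indicator_of_notMem hx1, zero_add]
      · rw [Set.indicator_of_notMem hx1, Set.indicator_of_notMem hx2, add_zero]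
        refine image_eq_zero_of_notMem_tsupport (fun h => ?_)
        rcases (hV v v.2).2.2.1 h with h | h
        · exact hx1 h
        · exact hx2 h
  have hLinj : Function.Injective L := by
    intro v w hvw
    apply Subtype.ext
    funext x
    have e1 : ((L v).1 : E N → ℝ) = ((L w).1 : E N → ℝ) := by rw [hvw]
    have e2 : ((L v).2 : E N → ℝ) = ((L w).2 : E N → ℝ) := by rw [hvw]
    rw [hL1, hL1] at e1
    rw [hL2, hL2] at e2
    rw [hsum v x, hsum w x, e1, e2]
  have hpos : ∀ v ∈ LinearMap.range L, 0 ≤ q₁ v.1 + q₂ v.2 := by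
    rintro _ ⟨v, rfl⟩
    rw [hq₁, hq₂, hL1, hL2]
    obtain ⟨a1, b1, c1, d1⟩ := du_ind N Ω₁ Ω₂ h1 h2 hd v (hV v v.2).1 (hV v v.2).2.1
      (hV v v.2).2.2.1
    obtain ⟨a2, b2, c2, d2⟩ := du_ind N Ω₂ Ω₁ h2 h1 hd.symm v (hV v v.2).1 (hV v v.2).2.1
      (ht2 v v.2)
    have i1 : ∀ w : E N → ℝ, ContDiff ℝ (⊤ : ℕ∞) w → HasCompactSupport w →
        Integrable (fun x => w x ^ 2) ∧ Integrable (fun x => ‖fderiv ℝ w x‖ ^ 2) := by
      intro w hw hwc
      constructor
      · apply Continuous.integrable_of_hasCompactSupport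
        · exact hw.continuous.pow 2
        · refine hwc.mono ?_
          intro x hx
          rw [Function.mem_support] at hx ⊢
          intro h3
          apply hx
          rw [h3]; norm_num
      · apply Continuous.integrable_of_hasCompactSupport
        · exact ((hw.continuous_fderiv (by norm_num)).norm).pow 2
        · refine (hwc.fderiv ℝ).mono ?_
          intro x hx
          rw [Function.mem_support] at hx ⊢
          intro h3
          apply hx
          rw [h3]; norm_num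
    have e1 : (∫ x, Ω₁.indicator (v : E N → ℝ) x ^ 2) + (∫ x, Ω₂.indicator (v : E N → ℝ) x ^ 2) =
        ∫ x, (v : E N → ℝ) x ^ 2 := by
      rw [← integral_add (i1 _ a1 b1).1 (i1 _ a2 b2).1]
      refine integral_congr_ae (Filter.Eventually.of_forall fun x => ?_)
      have h3 := hsum v x
      have h4 : Ω₁.indicator (v : E N → ℝ) x * Ω₂.indicator (v : E N → ℝ) x = 0 := by
        by_cases hx1 : x ∈ Ω₁
        · have hx2 : x ∉ Ω₂ := fun h => Set.disjoint_left.mp hd hx1 h
          rw [Set.indicator_of_notMem hx2, mul_zero]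
        · rw [Set.indicator_of_notMem hx1, zero_mul]
      simp only
      rw [h3]
      linear_combination (-2) * h4
    have e2 : (∫ x, ‖fderiv ℝ (Ω₁.indicator (v : E N → ℝ)) x‖ ^ 2) +
        (∫ x, ‖fderiv ℝ (Ω₂.indicator (v : E N → ℝ)) x‖ ^ 2) =
        ∫ x, ‖fderiv ℝ (v : E N → ℝ) x‖ ^ 2 := by
      rw [← integral_add (i1 _ a1 b1).2 (i1 _ a2 b2).2]
      refine integral_congr_ae (Filter.Eventually.of_forall fun x => ?_)
      simp only
      rw [d1 x, d2 x]
      by_cases hx1 : x ∈ Ω₁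
      · have hx2 : x ∉ Ω₂ := fun h => Set.disjoint_left.mp hd hx1 h
        rw [Set.indicator_of_mem hx1, Set.indicator_of_notMem hx2]
        simp
      · by_cases hx2 : x ∈ Ω₂
        · rw [Set.indicator_of_mem hx2, Set.indicator_of_notMem hx1]
          simp
        · rw [Set.indicator_of_notMem hx1, Set.indicator_of_notMem hx2]
          have hx3 : x ∉ tsupport (v : E N → ℝ) := fun h => by
            rcases (hV v v.2).2.2.1 h with h | h
            · exact hx1 h
            · exact hx2 h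
          have h3 : (v : E N → ℝ) =ᶠ[nhds x] 0 := notMem_tsupport_iff_eventuallyEq.mp hx3
          rw [h3.fderiv_eq]
          simp
    have h5 := (hV v v.2).2.2.2
    have h6 : c * ((∫ x, Ω₁.indicator (v : E N → ℝ) x ^ 2) +
        (∫ x, Ω₂.indicator (v : E N → ℝ) x ^ 2)) = c * ∫ x, (v : E N → ℝ) x ^ 2 := by rw [e1]
    linarith
  obtain ⟨P₁, P₂, hP₁, hP₂, hdim⟩ := hLIN (V.map (T Ω₁)) (V.map (T Ω₂)) q₁ q₂
    (LinearMap.range L) hpos
  refine ⟨Module.finrank ℝ P₁, Module.finrank ℝ P₂, ?_, ?_, ?_⟩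
  · rw [hdim, LinearMap.finrank_range_of_inj hLinj, hVn]
  · refine ⟨P₁.map (V.map (T Ω₁)).subtype, ?_, ?_⟩
    · exact Submodule.finrank_map_subtype_eq _ _
    · intro w hw
      obtain ⟨u, hu, rfl⟩ := Submodule.mem_map.mp hw
      have h7 := hP₁ u hu
      rw [hq₁] at h7
      obtain ⟨a, b, c'⟩ := hW1 u u.2
      exact ⟨a, b, c', by simpa using h7⟩
  · refine ⟨P₂.map (V.map (T Ω₂)).subtype, ?_, ?_⟩
    · exact Submodule.finrank_map_subtype_eq _ _
    · intro w hw
      obtain ⟨u, hu, rfl⟩ := Submodule.mem_map.mp hw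
      have h7 := hP₂ u hu
      rw [hq₂] at h7
      obtain ⟨a, b, c'⟩ := hW2 u u.2
      exact ⟨a, b, c', by simpa using h7⟩

end Pool.Agent.H7.LK
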