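import Pool.Agent.H85.LK.Targets

/-!
# FL1: energy of the random fields (helper7)
-/

set_option autoImplicit false

open MeasureTheory Metric Set ProbabilityTheory
open scoped ENNReal

namespace Pool.Agent.H7.LK

open Pool.Agent.H85.LK

/-- FL1: energy of the random fields -/
theorem pf_FL1 (hQID : T_QID) (hINT : T_INT) (hDIF : T_DIF) (hMEA : T_MEA) : T_FL1 := by
  intro N n b l s A Ψ hb hl hMD hs hA hAb hΨ
  obtain ⟨hm, ⟨M, hM⟩, hBd, hreg, -⟩ := hMEA N n b l A Ψ hb hl hA hΨ
  have hΨm : Measurable Ψ := hΨ.1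
  obtain ⟨MΨ, hMΨ⟩ := hΨ.2.1
  have hΨ0 := hΨ.2.2
  -- the kernel is measurable and nonnegative
  have hkc : Continuous (hk N s) := by unfold hk; fun_prop
  have hk0 : ∀ z, 0 ≤ hk N s z := fun z => by unfold hk; positivity
  have hMdd : 0 ≤ M2 b l := by unfold M2; exact integral_nonneg fun _ => sq_nonneg _
  -- the identities for the components and the norm
  have hqn : Bd A (fun x => ‖Ψ x‖) := by
    refine ⟨hΨm.norm, ⟨MΨ, fun x => ?_⟩, fun x hx => ?_⟩
    · rw [abs_of_nonneg (norm_nonneg _)]; exact hMΨ x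
    · simp only [hΨ0 x hx, norm_zero]
  have hqi : ∀ i, Bd A (fun x => Ψ x i) := by
    intro i
    refine ⟨?_, ⟨MΨ, fun x => ?_⟩, fun x hx => ?_⟩
    · have h1 : Measurable (fun w : E n => w i) := by fun_prop
      exact h1.comp hΨm
    · refine le_trans ?_ (hMΨ x)
      have := EuclideanSpace.norm_eq (Ψ x)
      rw [← Real.norm_eq_abs]
      exact PiLp.norm_apply_le (Ψ x) i
    · simp only [hΨ0 x hx]; rfl
  obtain ⟨in1, eq1⟩ := hQID N s A _ hs hA hAb hqn
  have hqi' := fun i => hQID N s A _ hs hA hAb (hqi i)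
  have hqc := fun c => hQID N s A _ hs hA hAb (hBd c).2
  -- the function of `c` and `p`
  set F : E n → E N × E N → ℝ := fun c p =>
    hk N s (p.1 - p.2) * (GG b l c (Ψ p.1) - GG b l c (Ψ p.2)) ^ 2 with hF
  have hFm : Measurable (Function.uncurry F) := by
    have e1 : Measurable (fun q : E n × (E N × E N) => hk N s (q.2.1 - q.2.2)) :=
      hkc.measurable.comp (by fun_prop)
    have e2 : Measurable (fun q : E n × (E N × E N) => GG b l q.1 (Ψ q.2.1)) :=
      hm.comp (f := fun q : E n × (E N × E N) => (q.1, q.2.1)) (by fun_prop)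
    have e3 : Measurable (fun q : E n × (E N × E N) => GG b l q.1 (Ψ q.2.2)) :=
      hm.comp (f := fun q : E n × (E N × E N) => (q.1, q.2.2)) (by fun_prop)
    exact e1.mul ((e2.sub e3).pow_const 2)
  have hF0 : ∀ c p, 0 ≤ F c p := fun c p => mul_nonneg (hk0 _) (sq_nonneg _)
  -- the dominating function
  set f : E N → ℝ := A.indicator (fun _ => (1 : ℝ)) with hf
  have hfBd : Bd A f := by
    refine ⟨measurable_const.indicator hA, ⟨1, fun x => ?_⟩, fun x hx => ?_⟩
    · by_cases hx : x ∈ A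
      · rw [hf, Set.indicator_of_mem hx]; norm_num
      · rw [hf, Set.indicator_of_notMem hx]; norm_num
    · exact Set.indicator_of_notMem hx _
  obtain ⟨-, j1, j2, -⟩ := hINT N s A f f hs hA hAb hfBd hfBd
  set B : E N × E N → ℝ := fun p => (2 * |M|) ^ 2 *
    (hk N s (p.1 - p.2) * f p.1 ^ 2 + hk N s (p.1 - p.2) * f p.2 ^ 2) with hB
  have hBi : Integrable B (volume.prod volume) := (j1.add j2).const_mul _
  have hFB : ∀ c p, F c p ≤ B p := by
    intro c p
    have h1 : (GG b l c (Ψ p.1) - GG b l c (Ψ p.2)) ^ 2 ≤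
        (2 * |M|) ^ 2 * (f p.1 ^ 2 + f p.2 ^ 2) := by
      have h2 : |GG b l c (Ψ p.1) - GG b l c (Ψ p.2)| ≤ 2 * |M| := by
        have a1 := hM c p.1
        have a2 := hM c p.2
        have a3 := abs_sub (GG b l c (Ψ p.1)) (GG b l c (Ψ p.2))
        have a4 := le_abs_self M
        linarith
      have h3 : (GG b l c (Ψ p.1) - GG b l c (Ψ p.2)) ^ 2 ≤ (2 * |M|) ^ 2 := by
        rw [← sq_abs (GG b l c (Ψ p.1) - GG b l c (Ψ p.2))]
        exact pow_le_pow_left₀ (abs_nonneg _) h2 2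
      by_cases hx1 : p.1 ∈ A
      · have h4 : f p.1 = 1 := Set.indicator_of_mem hx1 _
        rw [h4]
        have h5 : 0 ≤ (2 * |M|) ^ 2 * f p.2 ^ 2 := by positivity
        nlinarith
      · by_cases hx2 : p.2 ∈ A
        · have h4 : f p.2 = 1 := Set.indicator_of_mem hx2 _
          rw [h4]
          have h5 : 0 ≤ (2 * |M|) ^ 2 * f p.1 ^ 2 := by positivity
          nlinarith
        · have h6 := (hBd c).2.2.2 p.1 hx1
          have h7 := (hBd c).2.2.2 p.2 hx2
          simp only at h6 h7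
          rw [h6, h7]
          have : 0 ≤ (2 * |M|) ^ 2 * (f p.1 ^ 2 + f p.2 ^ 2) := by positivity
          simpa using this
    calc F c p ≤ hk N s (p.1 - p.2) * ((2 * |M|) ^ 2 * (f p.1 ^ 2 + f p.2 ^ 2)) :=
          mul_le_mul_of_nonneg_left h1 (hk0 _)
      _ = B p := by rw [hB]; ring
  have hFi : Integrable (Function.uncurry F)
      ((stdGaussian (E n)).prod (volume.prod volume)) := by
    refine Integrable.mono' (hBi.comp_snd (stdGaussian (E n))) hFm.aestronglyMeasurable ?_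
    refine Filter.Eventually.of_forall fun q => ?_
    have h9 : 0 ≤ Function.uncurry F q := hF0 q.1 q.2
    rw [Real.norm_eq_abs, abs_of_nonneg h9]
    exact hFB q.1 q.2
  have hid : ∀ c : E n, (∫ x, GG b l c (Ψ x) ^ 2) - Qf N s (fun x => GG b l c (Ψ x)) =
      1 / 2 * ∫ p, F c p ∂(volume.prod volume) := fun c => (hqc c).2
  have hint1 : Integrable (fun c => ∫ p, F c p ∂(volume.prod volume)) (stdGaussian (E n)) :=
    hFi.integral_prod_left
  constructor
  · simp_rw [hid]
    exact hint1.const_mul _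
  · simp_rw [hid]
    rw [integral_const_mul, integral_integral_swap hFi]
    -- the pointwise bound
    set R : E N × E N → ℝ := fun p =>
      (M2 b l - DD b l) * (hk N s (p.1 - p.2) * (‖Ψ p.1‖ - ‖Ψ p.2‖) ^ 2) +
        DD b l * ∑ i, hk N s (p.1 - p.2) * (Ψ p.1 i - Ψ p.2 i) ^ 2 with hR
    have hRi : Integrable R (volume.prod volume) := by
      refine (in1.const_mul _).add ((integrable_finsetSum _ fun i _ => (hqi' i).1).const_mul _)
    have hpt : ∀ p, ∫ c, F c p ∂(stdGaussian (E n)) ≤ R p := by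
      intro p
      simp only [hF]
      rw [integral_const_mul]
      have h1 := hDIF n b l (Ψ p.1) (Ψ p.2) hb hl hMD
      have h2 : ‖Ψ p.1 - Ψ p.2‖ ^ 2 = ∑ i, (Ψ p.1 i - Ψ p.2 i) ^ 2 := by
        rw [EuclideanSpace.real_norm_sq_eq]
        rfl
      calc hk N s (p.1 - p.2) *
            ∫ c, (GG b l c (Ψ p.1) - GG b l c (Ψ p.2)) ^ 2 ∂(stdGaussian (E n)) ≤
            hk N s (p.1 - p.2) * (M2 b l * (‖Ψ p.1‖ - ‖Ψ p.2‖) ^ 2 +
              DD b l * (‖Ψ p.1 - Ψ p.2‖ ^ 2 - (‖Ψ p.1‖ - ‖Ψ p.2‖) ^ 2)) :=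
            mul_le_mul_of_nonneg_left h1 (hk0 _)
        _ = R p := by
            rw [hR, h2]
            simp only
            rw [← Finset.mul_sum]
            ring
    have hmono : ∫ p, (∫ c, F c p ∂(stdGaussian (E n))) ∂(volume.prod volume) ≤
        ∫ p, R p ∂(volume.prod volume) :=
      integral_mono hFi.integral_prod_right hRi hpt
    have hRe : ∫ p, R p ∂(volume.prod volume) =
        (M2 b l - DD b l) * (∫ p : E N × E N, hk N s (p.1 - p.2) *
          (‖Ψ p.1‖ - ‖Ψ p.2‖) ^ 2 ∂(volume.prod volume)) +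
        DD b l * ∑ i, ∫ p : E N × E N, hk N s (p.1 - p.2) *
          (Ψ p.1 i - Ψ p.2 i) ^ 2 ∂(volume.prod volume) := by
      rw [hR]
      rw [integral_add (in1.const_mul _)
        ((integrable_finsetSum _ fun i _ => (hqi' i).1).const_mul _), integral_const_mul,
        integral_const_mul, integral_finsetSum _ fun i _ => (hqi' i).1]
    have hsum : ∑ i, ((∫ x, Ψ x i ^ 2) - Qf N s (fun x => Ψ x i)) =
        1 / 2 * ∑ i, ∫ p : E N × E N, hk N s (p.1 - p.2) *
          (Ψ p.1 i - Ψ p.2 i) ^ 2 ∂(volume.prod volume) := by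
      rw [Finset.mul_sum]
      exact Finset.sum_congr rfl fun i _ => (hqi' i).2
    rw [hsum, eq1]
    rw [hRe] at hmono
    linarith

end Pool.Agent.H7.LK
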