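import Pool.Agent.H85.LK.Targets

/-!
# RPS: smoothness and gradient of the smoothing (helper7)
-/

set_option autoImplicit false

open MeasureTheory Metric Set ProbabilityTheory
open scoped ENNReal

namespace Pool.Agent.H7.LK

open Pool.Agent.H85.LK

theorem hk_hasFDerivAt (N : ℕ) (s : ℝ) (hs : 0 < s) (z : E N) :
    HasFDerivAt (hk N s) ((-(1 / (2 * s)) * hk N s z) • innerSL ℝ z) z := by
  have h1 : HasFDerivAt (fun x : E N => ‖x‖ ^ 2) (2 • innerSL ℝ z) z :=
    (hasStrictFDerivAt_norm_sq z).hasFDerivAt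
  have h2 : HasFDerivAt (fun x : E N => -‖x‖ ^ 2 / (4 * s))
      ((-(1 / (4 * s))) • ((2 : ℕ) • innerSL ℝ z)) z := by
    refine (h1.const_mul (-(1 / (4 * s)))).congr_of_eventuallyEq ?_
    refine Filter.Eventually.of_forall fun x => ?_
    simp only
    ring
  have h3 := (h2.exp).const_mul ((4 * Real.pi * s) ^ (-(N : ℝ) / 2))
  refine h3.congr_fderiv ?_
  ext a
  simp only [smul_apply, innerSL_apply_apply, smul_eq_mul, hk, nsmul_eq_mul]
  push_cast
  have h4 : s ≠ 0 := hs.ne'
  field_simp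
  norm_num

theorem hk_contDiff (N : ℕ) (s : ℝ) : ContDiff ℝ (⊤ : ℕ∞) (hk N s) := by
  unfold hk
  apply contDiff_const.mul
  apply ContDiff.exp
  exact ((contDiff_norm_sq ℝ).neg).div_const _

theorem bd_integrable (N : ℕ) (f : E N → ℝ) (hf : Bd (ball (0 : E N) 1) f) : Integrable f := by
  obtain ⟨hm, ⟨M, hM⟩, h0⟩ := hf
  have h1 : IntegrableOn f (ball (0 : E N) 1) := by
    refine Measure.integrableOn_of_bounded (M := M) ?_ hm.aestronglyMeasurable ?_
    · exact measure_ball_lt_top.ne
    · exact Filter.Eventually.of_forall fun x => hM x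
  refine (integrableOn_iff_integrable_of_support_subset ?_).mp h1
  intro x hx
  by_contra hx1
  exact hx (h0 x hx1)

/-- RPS: smoothness and gradient of the smoothing -/
theorem pf_RPS : T_RPS := by
  intro N s f hs hf
  have hfi := bd_integrable N f hf
  have hfl : LocallyIntegrable f := hfi.locallyIntegrable
  obtain ⟨hm, ⟨M, hM⟩, h0⟩ := hf
  -- for every `x₀` there is a compactly supported kernel
  have key : ∀ x₀ : E N, ∃ k : E N → ℝ, ContDiff ℝ (⊤ : ℕ∞) k ∧ HasCompactSupport k ∧
      (∀ z : E N, ‖z‖ < ‖x₀‖ + 2 → k =ᶠ[nhds z] hk N s) := by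
    intro x₀
    have hR : 0 < ‖x₀‖ + 2 := by positivity
    let θ : ContDiffBump (0 : E N) := ⟨‖x₀‖ + 2, ‖x₀‖ + 3, hR, by linarith⟩
    refine ⟨fun z => θ z * hk N s z, ?_, ?_, ?_⟩
    · exact θ.contDiff.mul (hk_contDiff N s)
    · exact θ.hasCompactSupport.mul_right
    · intro z hz
      have hz' : z ∈ ball (0 : E N) (‖x₀‖ + 2) := by rw [mem_ball_zero_iff]; exact hz
      filter_upwards [isOpen_ball.mem_nhds hz'] with y hy
      have h1 : θ y = 1 := θ.one_of_mem_closedBall (ball_subset_closedBall hy)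
      rw [h1, one_mul]
  -- local form of `sm`
  have hloc : ∀ (x₀ : E N) (k : E N → ℝ),
      (∀ z : E N, ‖z‖ < ‖x₀‖ + 2 → k =ᶠ[nhds z] hk N s) →
      sm N s f =ᶠ[nhds x₀]
        convolution f k (ContinuousLinearMap.mul ℝ ℝ) (volume : Measure (E N)) := by
    intro x₀ k hk'
    have hx₀ : x₀ ∈ ball (0 : E N) (‖x₀‖ + 1) := by
      rw [mem_ball_zero_iff]; linarith
    filter_upwards [isOpen_ball.mem_nhds hx₀] with x hx
    rw [mem_ball_zero_iff] at hx
    rw [convolution_def, sm]
    refine integral_congr_ae (Filter.Eventually.of_forall fun y => ?_)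
    simp only [ContinuousLinearMap.mul_apply']
    by_cases hy : y ∈ ball (0 : E N) 1
    · rw [mem_ball_zero_iff] at hy
      have h1 : ‖x - y‖ < ‖x₀‖ + 2 := by
        have := norm_sub_le x y
        linarith
      rw [(hk' (x - y) h1).self_of_nhds]
      ring
    · rw [h0 y hy]; ring
  constructor
  · rw [contDiff_iff_contDiffAt]
    intro x₀
    obtain ⟨k, hk1, hk2, hk3⟩ := key x₀
    refine ContDiffAt.congr_of_eventuallyEq ?_ (hloc x₀ k hk3)
    exact (hk2.contDiff_convolution_right (ContinuousLinearMap.mul ℝ ℝ) hfl hk1).contDiffAt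
  · intro x₀ a
    obtain ⟨k, hk1, hk2, hk3⟩ := key x₀
    have hd := hk2.hasFDerivAt_convolution_right (ContinuousLinearMap.mul ℝ ℝ) hfl
      (hk1.of_le (by norm_num)) x₀
    rw [(hloc x₀ k hk3).fderiv_eq, hd.fderiv]
    rw [convolution_def]
    have hint : Integrable (fun t => ((ContinuousLinearMap.mul ℝ ℝ).precompR (E N) (f t))
        (fderiv ℝ k (x₀ - t))) := by
      have h1 : HasCompactSupport (fderiv ℝ k) := hk2.fderiv ℝ
      exact h1.convolutionExists_right ((ContinuousLinearMap.mul ℝ ℝ).precompR (E N)) hfl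
        (hk1.continuous_fderiv (by norm_num)) x₀
    rw [ContinuousLinearMap.integral_apply hint, ← integral_const_mul]
    refine integral_congr_ae (Filter.Eventually.of_forall fun y => ?_)
    change f y * (fderiv ℝ k (x₀ - y)) a =
      1 / (2 * s) * (hk N s (x₀ - y) * (inner ℝ (y - x₀) a * f y))
    by_cases hy : y ∈ ball (0 : E N) 1
    · rw [mem_ball_zero_iff] at hy
      have h1 : ‖x₀ - y‖ < ‖x₀‖ + 2 := by
        have := norm_sub_le x₀ y
        linarith
      rw [(hk3 (x₀ - y) h1).fderiv_eq, (hk_hasFDerivAt N s hs (x₀ - y)).fderiv]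
      simp only [smul_apply, innerSL_apply_apply, smul_eq_mul]
      have h2 : (inner ℝ (y - x₀) a : ℝ) = - inner ℝ (x₀ - y) a := by
        rw [← neg_sub, inner_neg_left]
      rw [h2]
      ring
    · rw [h0 y hy]; ring

end Pool.Agent.H7.LK
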